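import Pool.Agent.Y963.LP.Stm

set_option autoImplicit false
set_option linter.unusedSectionVars false

/-!
Euler inequality for a subgraph of an embedded graph (job LP-EUL): linear algebra over `ZMod 2`.
-/

namespace Pool.Agent.Y899.LP

open Finset Module Pool.Agent.Y963.LP

abbrev K : Type := ZMod 2

theorem add_self (x : K) : x + x = 0 := CharTwo.add_self_eq_zero x

theorem eq_of_add_eq_zero {x y : K} (h : x + y = 0) : x = y := by
  have : x = x + y + y := by rw [add_assoc, add_self, add_zero]
  rw [this, h, zero_add]

section general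

variable {M N : Type} [AddCommGroup M] [Module K M] [AddCommGroup N] [Module K N]

/-- rank-nullity for the restriction to a subspace -/
theorem rn [FiniteDimensional K M] (U : Submodule K M) (g : M →ₗ[K] N) :
    finrank K (U.map g) + finrank K (U ⊓ LinearMap.ker g : Submodule K M) = finrank K U := by
  have h := LinearMap.finrank_range_add_finrank_ker (g.domRestrict U)
  rw [LinearMap.range_domRestrict, LinearMap.ker_domRestrict] at h
  have h2 : finrank K ((LinearMap.ker g).comap U.subtype) =
      finrank K (U ⊓ LinearMap.ker g : Submodule K M) := by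
    rw [← Submodule.map_comap_subtype]
    exact (LinearEquiv.finrank_eq
      (Submodule.equivMapOfInjective U.subtype U.injective_subtype _))
  rw [h2] at h
  exact h

end general

section perm

variable {D : Type}

/-- the functions invariant under a permutation -/
def Inv (p : Equiv.Perm D) : Submodule K (D → K) where
  carrier := {x | ∀ d, x (p d) = x d}
  add_mem' := by
    intro x y hx hy d
    simp only [Pi.add_apply, hx d, hy d]
  zero_mem' := fun _ => rfl
  smul_mem' := by
    intro c x hx d
    simp only [Pi.smul_apply, hx d]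

theorem mem_Inv {p : Equiv.Perm D} {x : D → K} : x ∈ Inv p ↔ ∀ d, x (p d) = x d := Iff.rfl

theorem inv_pow {p : Equiv.Perm D} {x : D → K} (hx : x ∈ Inv p) (n : ℕ) (d : D) :
    x ((p ^ n) d) = x d := by
  induction n with
  | zero => simp
  | succ n ih => rw [pow_succ', Equiv.Perm.mul_apply, hx, ih]

theorem inv_sameCycle [Finite D] {p : Equiv.Perm D} {x : D → K} (hx : x ∈ Inv p) {d e : D}
    (h : p.SameCycle d e) : x d = x e := by
  obtain ⟨n, -, hn⟩ := h.exists_pow_eq'
  rw [← hn, inv_pow hx]

theorem finrank_Inv [Finite D] (p : Equiv.Perm D) : finrank K (Inv p) = orbits p := by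
  classical
  cases nonempty_fintype D
  let Q := Quotient (Equiv.Perm.SameCycle.setoid p)
  let mk : D → Q := Quotient.mk _
  have hs : Function.Surjective mk := Quotient.mk_surjective
  let f : (Q → K) →ₗ[K] (D → K) := LinearMap.funLeft K K mk
  have hf : Function.Injective f := LinearMap.funLeft_injective_of_surjective K K mk hs
  have hr : LinearMap.range f = Inv p := by
    ext x
    constructor
    · rintro ⟨y, rfl⟩
      intro d
      show y (mk (p d)) = y (mk d)
      congr 1
      apply Quotient.sound
      show p.SameCycle (p d) d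
      exact (Equiv.Perm.sameCycle_apply_left).mpr (Equiv.Perm.SameCycle.refl _ _)
    · intro hx
      refine ⟨fun q => Quotient.lift x (fun d e h => inv_sameCycle hx h) q, ?_⟩
      funext d
      rfl
  have : Finite Q := Quotient.finite _
  have : Fintype Q := Fintype.ofFinite Q
  rw [← hr, LinearMap.finrank_range_of_inj hf, Module.finrank_fintype_fun_eq_card]
  unfold orbits
  rw [Nat.card_eq_fintype_card]

/-- a fixed-point-free involution has `|D|/2` orbits -/
theorem two_mul_orbits [Fintype D] (a : Equiv.Perm D) (h1 : ∀ d, a (a d) = d)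
    (h2 : ∀ d, a d ≠ d) : 2 * orbits a = Fintype.card D := by
  classical
  let Q := Quotient (Equiv.Perm.SameCycle.setoid a)
  let mk : D → Q := Quotient.mk _
  have : Finite Q := Quotient.finite _
  have : Fintype Q := Fintype.ofFinite Q
  have key : ∀ q : Q, (Finset.univ.filter (fun d => mk d = q)).card = 2 := by
    intro q
    obtain ⟨d, rfl⟩ := Quotient.mk_surjective q
    have : (Finset.univ.filter (fun e => mk e = mk d)) = {d, a d} := by
      ext e
      simp only [Finset.mem_filter, Finset.mem_univ, true_and, Finset.mem_insert,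
        Finset.mem_singleton]
      constructor
      · intro h
        have h3 : a.SameCycle e d := Quotient.exact h
        obtain ⟨n, -, hn⟩ := h3.symm.exists_pow_eq'
        have : ∀ n : ℕ, (a ^ n) d = d ∨ (a ^ n) d = a d := by
          intro n
          induction n with
          | zero => left; simp
          | succ n ih =>
            rw [pow_succ', Equiv.Perm.mul_apply]
            rcases ih with h | h
            · right; rw [h]
            · left; rw [h, h1]
        rcases this n with h | h
        · left; rw [← hn, h]
        · right; rw [← hn, h]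
      · rintro (rfl | rfl)
        · rfl
        · apply Quotient.sound
          show a.SameCycle (a d) d
          exact (Equiv.Perm.sameCycle_apply_left).mpr (Equiv.Perm.SameCycle.refl _ _)
    show (Finset.univ.filter (fun e => mk e = mk d)).card = 2
    rw [this, Finset.card_pair (h2 d).symm]
  have := Finset.card_eq_sum_card_fiberwise (f := mk) (s := (Finset.univ : Finset D))
    (t := (Finset.univ : Finset Q)) (fun _ _ => Finset.mem_coe.mpr (Finset.mem_univ _))
  rw [Finset.card_univ] at this
  rw [this, Finset.sum_congr rfl (fun q _ => key q)]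
  unfold orbits
  rw [Nat.card_eq_fintype_card]
  simp [mul_comm, Q]

/-- the boundary of a face function -/
def bta (a : Equiv.Perm D) : (D → K) →ₗ[K] (D → K) where
  toFun x := fun d => x d + x (a d)
  map_add' x y := by
    funext d
    simp only [Pi.add_apply]
    ring
  map_smul' c x := by
    funext d
    simp only [Pi.smul_apply, smul_eq_mul, RingHom.id_apply]
    ring

end perm

section main

variable {D V : Type} [Fintype D] [DecidableEq D] [Fintype V] [DecidableEq V]

/-- vertex sums -/
def bdy (o : D → V) : (D → K) →ₗ[K] (V → K) where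
  toFun z := fun v => ∑ d ∈ Finset.univ.filter (fun d => o d = v), z d
  map_add' x y := by
    funext v
    simp only [Pi.add_apply, Finset.sum_add_distrib]
  map_smul' c x := by
    funext v
    simp only [Pi.smul_apply, smul_eq_mul, RingHom.id_apply, Finset.mul_sum]

/-- the cycle space -/
def Zsp (o : D → V) (a : Equiv.Perm D) : Submodule K (D → K) := Inv a ⊓ LinearMap.ker (bdy o)

theorem mem_Zsp {o : D → V} {a : Equiv.Perm D} {z : D → K} : z ∈ Zsp o a ↔ IsCyc o a z := by
  unfold Zsp IsCyc
  rw [Submodule.mem_inf, mem_Inv, LinearMap.mem_ker]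
  constructor
  · rintro ⟨h1, h2⟩
    exact ⟨h1, fun v => congrFun h2 v⟩
  · rintro ⟨h1, h2⟩
    exact ⟨h1, funext h2⟩

/-- the boundary space -/
def Bsp (s a : Equiv.Perm D) : Submodule K (D → K) := (Inv (s * a)).map (bta a)

theorem mem_Bsp {s a : Equiv.Perm D} {z : D → K} : z ∈ Bsp s a ↔ IsBd s a z := by
  unfold Bsp IsBd
  rw [Submodule.mem_map]
  constructor
  · rintro ⟨x, h1, h2⟩
    exact ⟨x, h1, fun d => (congrFun h2 d).symm⟩
  · rintro ⟨x, h1, h2⟩
    exact ⟨x, h1, funext fun d => (h2 d).symm⟩

variable (o : D → V) (a s : Equiv.Perm D)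

theorem Zsp_upper (ha : ∀ d, a (a d) = d)
    (hc : ∀ u v, Relation.ReflTransGen (fun u v => ∃ d, o d = u ∧ o (a d) = v) u v)
    (v₀ : V) : finrank K (Zsp o a) + Fintype.card V ≤ finrank K (Inv a) + 1 := by
  classical
  have h := rn (Inv a) (bdy o)
  have hs : (Inv a).map (bdy o) ⊔ K ∙ (Pi.single v₀ (1 : K) : V → K) = ⊤ := by
    have hedge : ∀ d : D, (Pi.single (o d) (1 : K) + Pi.single (o (a d)) 1 : V → K) ∈
        (Inv a).map (bdy o) := by
      intro d
      have hb : ∀ d : D, bdy o (Pi.single d (1 : K)) = Pi.single (o d) 1 := by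
        intro d
        funext v
        show ∑ e ∈ Finset.univ.filter (fun e => o e = v), (Pi.single d (1 : K) : D → K) e = _
        rw [Finset.sum_pi_single']
        simp only [Finset.mem_filter, Finset.mem_univ, true_and, Pi.single_apply]
        by_cases h : o d = v
        · simp [h]
        · simp [h, Ne.symm h]
      refine ⟨Pi.single d 1 + Pi.single (a d) 1, ?_, ?_⟩
      · intro e
        have h1 : (a e = d) ↔ (e = a d) :=
          ⟨fun h => by rw [← h, ha], fun h => by rw [h, ha]⟩
        have h2 : (a e = a d) ↔ (e = d) := a.injective.eq_iff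
        simp only [Pi.add_apply, Pi.single_apply, h1, h2]
        ring
      · rw [map_add, hb, hb]
    have hpath : ∀ u v, Relation.ReflTransGen (fun u v => ∃ d, o d = u ∧ o (a d) = v) u v →
        (Pi.single u (1 : K) + Pi.single v 1 : V → K) ∈ (Inv a).map (bdy o) := by
      intro u v h
      induction h with
      | refl =>
        have : (Pi.single u (1 : K) + Pi.single u 1 : V → K) = 0 := by
          funext w
          exact add_self _
        rw [this]
        exact Submodule.zero_mem _
      | tail _ hbc ih =>
        obtain ⟨d, rfl, rfl⟩ := hbc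
        have := Submodule.add_mem _ ih (hedge d)
        have h2 : (Pi.single u (1 : K) + Pi.single (o (a d)) 1 : V → K) =
            Pi.single u (1 : K) + Pi.single (o d) 1 +
              (Pi.single (o d) (1 : K) + Pi.single (o (a d)) 1) := by
          funext w
          simp only [Pi.add_apply]
          have := add_self ((Pi.single (o d) (1 : K) : V → K) w)
          linear_combination -this
        rw [h2]
        exact this
    have hsingle : ∀ u : V, (Pi.single u (1 : K) : V → K) ∈
        (Inv a).map (bdy o) ⊔ K ∙ (Pi.single v₀ (1 : K) : V → K) := by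
      intro u
      have h1 : (Pi.single u (1 : K) + Pi.single v₀ 1 : V → K) ∈
          (Inv a).map (bdy o) ⊔ K ∙ (Pi.single v₀ (1 : K) : V → K) :=
        (le_sup_left : (Inv a).map (bdy o) ≤ _) (hpath u v₀ (hc u v₀))
      have h2 : (Pi.single v₀ 1 : V → K) ∈
          (Inv a).map (bdy o) ⊔ K ∙ (Pi.single v₀ (1 : K) : V → K) :=
        (le_sup_right : K ∙ (Pi.single v₀ (1 : K) : V → K) ≤ _)
          (Submodule.mem_span_singleton_self _)
      have := Submodule.add_mem _ h1 h2
      have h3 : (Pi.single u (1 : K) + Pi.single v₀ 1 + Pi.single v₀ 1 : V → K) =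
          Pi.single u (1 : K) := by
        funext w
        simp only [Pi.add_apply]
        rw [add_assoc, add_self, add_zero]
      rwa [h3] at this
    rw [eq_top_iff]
    intro x _
    rw [← Finset.univ_sum_single x]
    apply Submodule.sum_mem
    intro u _
    have : (Pi.single u (x u) : V → K) = x u • Pi.single u (1 : K) := by
      rw [← Pi.single_smul]
      simp
    rw [this]
    exact Submodule.smul_mem _ _ (hsingle u)
  have h2 := Submodule.finrank_add_le_finrank_add_finrank ((Inv a).map (bdy o))
    (K ∙ (Pi.single v₀ (1 : K) : V → K))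
  rw [hs, finrank_top, Module.finrank_fintype_fun_eq_card] at h2
  have h3 : finrank K (K ∙ (Pi.single v₀ (1 : K) : V → K)) ≤ 1 := by
    have := finrank_span_le_card (R := K) ({(Pi.single v₀ (1 : K) : V → K)} : Set (V → K))
    simpa using this
  unfold Zsp
  omega

theorem Bsp_lower [Nonempty D] (ha : ∀ d, a (a d) = d)
    (hs : ∀ d d', s.SameCycle d d' ↔ o d = o d')
    (hc : ∀ u v, Relation.ReflTransGen (fun u v => ∃ d, o d = u ∧ o (a d) = v) u v) :
    orbits (s * a) ≤ finrank K (Bsp s a) + 1 := by
  have h := rn (Inv (s * a)) (bta a)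
  rw [finrank_Inv] at h
  have h2 : (Inv (s * a) ⊓ LinearMap.ker (bta a) : Submodule K (D → K)) ≤
      K ∙ (fun _ => 1 : D → K) := by
    rintro x ⟨hx1, hx2⟩
    have hxa : ∀ d, x (a d) = x d := by
      intro d
      have : x d + x (a d) = 0 := congrFun (LinearMap.mem_ker.mp hx2) d
      exact (eq_of_add_eq_zero this).symm
    have hxs : x ∈ Inv s := by
      intro d
      have h1 : x (s (a (a d))) = x (a d) := hx1 (a d)
      rw [ha] at h1
      rw [h1, hxa]
    have ho : ∀ d d', o d = o d' → x d = x d' := fun d d' h =>
      inv_sameCycle hxs ((hs d d').mpr h)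
    have hp : ∀ u v, Relation.ReflTransGen (fun u v => ∃ d, o d = u ∧ o (a d) = v) u v →
        ∀ d d', o d = u → o d' = v → x d = x d' := by
      intro u v h
      induction h with
      | refl =>
        intro d d' h1 h2
        exact ho d d' (h1.trans h2.symm)
      | tail _ hbc ih =>
        obtain ⟨e, he1, he2⟩ := hbc
        intro d d' h1 h2
        rw [ih d e h1 he1, ← hxa e]
        exact ho _ _ (he2.trans h2.symm)
    obtain ⟨d₀⟩ := (inferInstance : Nonempty D)
    rw [Submodule.mem_span_singleton]
    refine ⟨x d₀, ?_⟩
    funext d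
    simp only [Pi.smul_apply, smul_eq_mul, mul_one]
    exact hp (o d₀) (o d) (hc _ _) d₀ d rfl rfl
  have h3 : finrank K (Inv (s * a) ⊓ LinearMap.ker (bta a) : Submodule K (D → K)) ≤ 1 := by
    refine (Submodule.finrank_mono h2).trans ?_
    have := finrank_span_le_card (R := K) ({(fun _ => 1 : D → K)} : Set (D → K))
    simpa using this
  unfold Bsp
  omega

theorem Bsp_le (ha : ∀ d, a (a d) = d) (hs : ∀ d d', s.SameCycle d d' ↔ o d = o d') :
    Bsp s a ≤ Zsp o a := by
  rintro z ⟨x, hx, rfl⟩
  refine ⟨?_, ?_⟩
  · intro d
    show x (a d) + x (a (a d)) = x d + x (a d)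
    rw [ha, add_comm]
  · rw [SetLike.mem_coe, LinearMap.mem_ker]
    funext v
    show ∑ d ∈ Finset.univ.filter (fun d => o d = v), (x d + x (a d)) = 0
    have h1 : ∀ d, x (a d) = x (s d) := by
      intro d
      have h1 : x (s (a (a d))) = x (a d) := hx (a d)
      rw [ha] at h1
      exact h1.symm
    rw [Finset.sum_add_distrib]
    have h2 : ∑ d ∈ Finset.univ.filter (fun d => o d = v), x (a d) =
        ∑ d ∈ Finset.univ.filter (fun d => o d = v), x d := by
      rw [Finset.sum_congr rfl (fun d _ => h1 d)]
      apply Finset.sum_equiv s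
      · intro d
        simp only [Finset.mem_filter, Finset.mem_univ, true_and]
        have : o (s d) = o d := by
          rw [← hs]
          exact (Equiv.Perm.sameCycle_apply_left).mpr (Equiv.Perm.SameCycle.refl _ _)
        rw [this]
      · intro d _
        rfl
    rw [h2]
    exact add_self _

/-- extension by zero from a finset -/
def ext (S : Finset D) : ({d // d ∈ S} → K) →ₗ[K] (D → K) where
  toFun y := fun d => if h : d ∈ S then y ⟨d, h⟩ else 0
  map_add' x y := by
    funext d
    by_cases h : d ∈ S <;> simp [h]
  map_smul' c x := by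
    funext d
    by_cases h : d ∈ S <;> simp [h]

theorem ext_inj (S : Finset D) : Function.Injective (ext S) := by
  intro x y h
  funext d
  have := congrFun h d.1
  simpa [ext, d.2] using this

theorem ext_apply (S : Finset D) (y : {d // d ∈ S} → K) (d : D) (h : d ∈ S) :
    ext S y d = y ⟨d, h⟩ := by
  simp [ext, h]

theorem ext_apply_not (S : Finset D) (y : {d // d ∈ S} → K) (d : D) (h : d ∉ S) :
    ext S y d = 0 := by
  simp [ext, h]

theorem inner_closed (ha : ∀ d, a (a d) = d) (W : Finset V) (d : D) :
    a d ∈ Pool.Agent.Y963.LP.inner o a W ↔ d ∈ Pool.Agent.Y963.LP.inner o a W := by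
  unfold Pool.Agent.Y963.LP.inner
  simp only [Finset.mem_filter, Finset.mem_univ, true_and, ha]
  exact and_comm

end main

theorem eul : S_EUL := by
  intro D V _ _ _ _ o a s ha ha' hs hc W hW t ht f hf hS
  classical
  have hcl := inner_closed o a ha W
  have hSW : ∀ d ∈ Pool.Agent.Y963.LP.inner o a W, o d ∈ W := by
    intro d hd
    unfold Pool.Agent.Y963.LP.inner at hd
    simp only [Finset.mem_filter] at hd
    exact hd.2.1
  generalize hSdef : Pool.Agent.Y963.LP.inner o a W = S at *
  obtain ⟨d₀, hd₀⟩ := hS
  obtain ⟨w₀, hw₀⟩ := hW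
  have : Nonempty D := ⟨d₀⟩
  let aS : Equiv.Perm {d // d ∈ S} := a.subtypePerm (fun d => (hcl d))
  have haS : ∀ d, (aS d : D) = a d := fun d => rfl
  have haS2 : ∀ d, aS (aS d) = d := fun d => Subtype.ext (by rw [haS, haS, ha])
  have haS3 : ∀ d, aS d ≠ d := fun d h => ha' d (by rw [← haS, h])
  have hnA : 2 * finrank K (Inv a) = Fintype.card D := by
    rw [finrank_Inv, two_mul_orbits a ha ha']
  have hnS : 2 * finrank K (Inv aS) = S.card := by
    rw [finrank_Inv, two_mul_orbits aS haS2 haS3, Fintype.card_coe]
  -- the cycle space of the subgraph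
  let bdyS : ({d // d ∈ S} → K) →ₗ[K] (V → K) := (bdy o).comp (ext S)
  let ZS : Submodule K ({d // d ∈ S} → K) := Inv aS ⊓ LinearMap.ker bdyS
  have hZS : finrank K (Inv aS) + 1 ≤ finrank K ZS + W.card := by
    have h := rn (Inv aS) bdyS
    -- functions vanishing off `W`
    let E : ({v // v ∈ W} → K) →ₗ[K] (V → K) := ext W
    let sm : (V → K) →ₗ[K] K :=
      { toFun := fun x => ∑ v, x v
        map_add' := fun x y => by simp only [Pi.add_apply, Finset.sum_add_distrib]
        map_smul' := fun c x => by
          simp only [Pi.smul_apply, smul_eq_mul, RingHom.id_apply, Finset.mul_sum] }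
    have hE : finrank K (LinearMap.range E) ≤ W.card := by
      have := LinearMap.finrank_range_le E
      rwa [Module.finrank_fintype_fun_eq_card, Fintype.card_coe] at this
    have hlt : (LinearMap.range E ⊓ LinearMap.ker sm : Submodule K (V → K)) <
        LinearMap.range E := by
      rw [lt_iff_le_and_ne]
      refine ⟨inf_le_left, fun heq => ?_⟩
      have h1 : (Pi.single w₀ (1 : K) : V → K) ∈ LinearMap.range E := by
        refine ⟨fun v => if v.1 = w₀ then 1 else 0, ?_⟩
        funext v
        by_cases hv : v ∈ W
        · show ext W _ v = _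
          rw [ext_apply W _ v hv, Pi.single_apply]
        · show ext W _ v = _
          rw [ext_apply_not W _ v hv, Pi.single_apply, if_neg]
          rintro rfl
          exact hv hw₀
      rw [← heq] at h1
      have h2 : ∑ v, (Pi.single w₀ (1 : K) : V → K) v = 0 := LinearMap.mem_ker.mp h1.2
      rw [Finset.sum_pi_single'] at h2
      simp at h2
    have hlt' := Submodule.finrank_lt_finrank_of_lt hlt
    have hle : (Inv aS).map bdyS ≤
        (LinearMap.range E ⊓ LinearMap.ker sm : Submodule K (V → K)) := by
      rintro g ⟨y, hy, rfl⟩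
      have hy' : ∀ d, ext S y (a d) = ext S y d := by
        intro d
        by_cases hd : d ∈ S
        · rw [ext_apply S y d hd, ext_apply S y (a d) ((hcl d).mpr hd)]
          exact hy ⟨d, hd⟩
        · rw [ext_apply_not S y d hd, ext_apply_not S y (a d) (fun h => hd ((hcl d).mp h))]
      constructor
      · refine ⟨fun v => bdyS y v.1, ?_⟩
        funext v
        by_cases hv : v ∈ W
        · show ext W _ v = _
          rw [ext_apply W _ v hv]
        · show ext W _ v = _
          rw [ext_apply_not W _ v hv]
          show 0 = ∑ d ∈ Finset.univ.filter (fun d => o d = v), ext S y d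
          symm
          apply Finset.sum_eq_zero
          intro d hd
          simp only [Finset.mem_filter, Finset.mem_univ, true_and] at hd
          apply ext_apply_not
          intro h
          exact hv (hd ▸ hSW d h)
      · rw [SetLike.mem_coe, LinearMap.mem_ker]
        show ∑ v, ∑ d ∈ Finset.univ.filter (fun d => o d = v), ext S y d = 0
        have h1 : ∑ v, ∑ d ∈ Finset.univ.filter (fun d => o d = v), ext S y d =
            ∑ d, ext S y d := by
          exact Finset.sum_fiberwise (Finset.univ : Finset D) o (ext S y)
        rw [h1]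
        refine Finset.sum_involution (fun d _ => a d) ?_ ?_ ?_ ?_
        · intro d _
          rw [hy']
          exact add_self _
        · intro d _ _
          exact ha' d
        · intro d _
          exact Finset.mem_univ _
        · intro d _
          exact ha d
    have hle' := Submodule.finrank_mono hle
    show finrank K (Inv aS) + 1 ≤ finrank K (Inv aS ⊓ LinearMap.ker bdyS : Submodule K _) + W.card
    omega
  -- boundaries of the faces of the subgraph
  let Bf : Submodule K ({d // d ∈ S} → K) := (Inv f).map (bta aS)
  have hBf : finrank K Bf + 1 ≤ orbits f := by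
    have h := rn (Inv f) (bta aS)
    rw [finrank_Inv] at h
    have h2 : (K ∙ (fun _ => 1 : {d // d ∈ S} → K)) ≤
        (Inv f ⊓ LinearMap.ker (bta aS) : Submodule K ({d // d ∈ S} → K)) := by
      rw [Submodule.span_singleton_le_iff_mem]
      refine ⟨fun _ => rfl, ?_⟩
      rw [SetLike.mem_coe, LinearMap.mem_ker]
      funext d
      exact add_self 1
    have h3 := Submodule.finrank_mono h2
    have h4 : (fun _ => 1 : {d // d ∈ S} → K) ≠ 0 := by
      intro h
      have := congrFun h ⟨d₀, hd₀⟩
      simp at this
    rw [finrank_span_singleton h4] at h3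
    show finrank K ((Inv f).map (bta aS)) + 1 ≤ orbits f
    omega
  have hextZ : finrank K (ZS.map (ext S)) = finrank K ZS :=
    (LinearEquiv.finrank_eq (Submodule.equivMapOfInjective (ext S) (ext_inj S) ZS)).symm
  have hZZ : ZS.map (ext S) ≤ Zsp o a := by
    rintro z ⟨y, hy, rfl⟩
    refine ⟨?_, ?_⟩
    · intro d
      by_cases hd : d ∈ S
      · rw [ext_apply S y d hd, ext_apply S y (a d) ((hcl d).mpr hd)]
        exact hy.1 ⟨d, hd⟩
      · rw [ext_apply_not S y d hd, ext_apply_not S y (a d) (fun h => hd ((hcl d).mp h))]
    · exact hy.2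
  have hkey : (ZS.map (ext S) ⊓ Bsp s a : Submodule K (D → K)) ≤ Bf.map (ext S) := by
    rintro z ⟨⟨y, hy, rfl⟩, ⟨x, hx, hxy⟩⟩
    have hxy' : ∀ d, x d + x (a d) = ext S y d := fun d => congrFun hxy d
    have hoff : ∀ d, d ∉ S → x (a d) = x d := by
      intro d hd
      have := hxy' d
      rw [ext_apply_not S y d hd] at this
      exact (eq_of_add_eq_zero this).symm
    have hx' : ∀ d, x (s (a d)) = x d := hx
    refine ⟨y, ⟨fun d => x d.1, ?_, ?_⟩, rfl⟩
    · intro d
      show x (f d : D) = x d
      have had : a (d : D) ∈ S := (hcl d).mpr d.2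
      rw [hf d had]
      obtain ⟨k, hk1, hk2, hk3⟩ := ht ⟨a d, had⟩
      rw [hk2]
      have : ∀ j, 1 ≤ j → j ≤ k → x ((s ^ j) (a d)) = x d := by
        intro j hj1
        induction j, hj1 using Nat.le_induction with
        | base => intro _; rw [pow_one]; exact hx' d
        | succ j hj1 ih =>
          intro hj
          have h1 := ih (by omega)
          have h2 := hk3 j hj1 (by omega)
          have h3 : x (s (a (a ((s ^ j) (a d))))) = x (a ((s ^ j) (a d))) := hx' _
          rw [ha, hoff _ h2, h1] at h3
          rw [pow_succ', Equiv.Perm.mul_apply]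
          exact h3
      exact this k hk1 le_rfl
    · funext d
      show x d + x (aS d : D) = y d
      rw [haS, hxy' d, ext_apply S y d d.2]
  have hextB : finrank K (Bf.map (ext S)) = finrank K Bf :=
    (LinearEquiv.finrank_eq (Submodule.equivMapOfInjective (ext S) (ext_inj S) Bf)).symm
  have hkey' := Submodule.finrank_mono hkey
  constructor
  · intro g hg
    have h1 := Zsp_upper o a ha hc w₀
    have h2 := Bsp_lower o a s ha hs hc
    have h3 := Submodule.finrank_sup_add_finrank_inf_eq (ZS.map (ext S)) (Bsp s a)
    have h4 := Submodule.finrank_mono (sup_le hZZ (Bsp_le o a s ha hs))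
    rw [hextZ] at h3
    rw [hextB] at hkey'
    omega
  · intro hB
    have h1 : (ZS.map (ext S)) ≤ Bf.map (ext S) := by
      intro z hz
      apply hkey
      refine ⟨hz, ?_⟩
      rw [SetLike.mem_coe, mem_Bsp]
      apply hB z (mem_Zsp.mp (hZZ hz))
      intro d hd
      obtain ⟨y, -, rfl⟩ := hz
      exact ext_apply_not S y d hd
    have h2 := Submodule.finrank_mono h1
    rw [hextZ, hextB] at h2
    omega

end Pool.Agent.Y899.LP
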